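import Mathlib

set_option autoImplicit false

namespace Q285.RB

open Finset

theorem rank_sum (S : Finset ℕ) (t : ℕ) (h : ∀ x ∈ S, t < x) :
    (S.card : ℤ) * (S.card + 1) ≤ 2 * ∑ p ∈ S, ((p : ℤ) - t) := by
  induction S using Finset.induction_on_max with
  | empty => simp
  | insert a S ha ih =>
    have hS := ih (fun x hx => h x (mem_insert_of_mem hx))
    have hna : a ∉ S := fun hx => lt_irrefl _ (ha a hx)
    rw [sum_insert hna, card_insert_of_notMem hna]
    have : (S.card : ℤ) + 1 ≤ (a : ℤ) - t := by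
      have h1 : S ⊆ Ioo t a := fun x hx => mem_Ioo.2 ⟨h x (mem_insert_of_mem hx), ha x hx⟩
      have h2 := card_le_card h1
      have h3 := h a (mem_insert_self _ _)
      rw [Nat.card_Ioo] at h2
      omega
    push_cast
    nlinarith

theorem rank_sum_trunc (S : Finset ℕ) (a : ℕ) (F : ℕ → ℤ) (h1 : ∀ x ∈ S, 1 ≤ x)
    (hF : ∀ x ∈ S, (x:ℤ) - a ≤ F x) (hF0 : ∀ x ∈ S, 0 ≤ F x) (ha : a ≤ S.card) :
    ((S.card : ℤ) - a) * (S.card - a + 1) ≤ 2 * ∑ p ∈ S, F p := by
  have h2 : ∑ p ∈ S.filter (fun x => a < x), ((p:ℤ) - a) ≤ ∑ p ∈ S, F p := by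
    calc _ ≤ ∑ p ∈ S.filter (fun x => a < x), F p :=
          sum_le_sum (fun x hx => hF x (mem_filter.1 hx).1)
      _ ≤ _ := sum_le_sum_of_subset_of_nonneg (filter_subset _ _) (fun x hx _ => hF0 x hx)
  have h3 := rank_sum (S.filter (fun x => a < x)) a (fun x hx => (mem_filter.1 hx).2)
  have h4 : S.card ≤ (S.filter (fun x => a < x)).card + a := by
    have h6 := Finset.card_filter_add_card_filter_not (s := S) (fun x => a < x)
    have h5 : (S.filter (fun x => ¬ a < x)).card ≤ a := by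
      have h7 : S.filter (fun x => ¬ a < x) ⊆ Icc 1 a := by
        intro x hx
        rw [mem_filter] at hx
        rw [mem_Icc]
        exact ⟨h1 x hx.1, by omega⟩
      have h8 := card_le_card h7
      rw [Nat.card_Icc] at h8
      omega
    omega
  have h4' : (S.card : ℤ) ≤ (S.filter (fun x => a < x)).card + a := by exact_mod_cast h4
  have ha' : (a : ℤ) ≤ S.card := by exact_mod_cast ha
  nlinarith

def fC (b : ℕ) (C : Finset ℕ) (p : ℕ) : ℕ :=
  (C.filter (fun q => p ≤ q + b ∧ q ≤ p + b ∧ b ≤ p + q)).card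

def fB (b g : ℕ) (B : Finset ℕ) (p : ℕ) : ℕ :=
  ((B.erase b).filter (fun r => p ≤ r + g ∧ r ≤ p + g ∧ g ≤ p + r)).card

def gn (b g : ℕ) (B C : Finset ℕ) (p : ℕ) : ℕ :=
  ((C ×ˢ B).filter (fun t => g < p ∧ t.1 < b ∧ t.2 < b ∧ p = t.1 + t.2 + 1)).card

structure Hyp (n m b g : ℕ) (A B C : Finset ℕ) : Prop where
  hU : A ∪ B ∪ C = Finset.Icc 1 n
  hAB : Disjoint A B
  hAC : Disjoint A C
  hBC : Disjoint B C
  hA : A.card = m
  hB : B.card = m
  hC : C.card = m
  hb : b ∈ B
  hbm : ∀ x ∈ B, x ≤ b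
  hg : g ∈ C
  hgm : ∀ x ∈ C, x ≤ g
  hbg : b < g

variable {n m b g : ℕ} {A B C : Finset ℕ}

theorem Hyp.window (H : Hyp n m b g A B C) (W : Finset ℕ) (hW : W ⊆ Icc 1 n) :
    (A ∩ W).card + (B ∩ W).card + (C ∩ W).card = W.card := by
  have h1 : W = (A ∩ W) ∪ (B ∩ W) ∪ (C ∩ W) := by
    ext x
    constructor
    · intro hx
      have h2 := hW hx
      rw [← H.hU] at h2
      simp only [mem_union] at h2
      simp only [mem_union, mem_inter]
      tauto
    · intro hx
      simp only [mem_union, mem_inter] at hx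
      tauto
  conv_rhs => rw [h1]
  rw [card_union_of_disjoint, card_union_of_disjoint]
  · exact (H.hAB.mono inter_subset_left inter_subset_left)
  · rw [disjoint_union_left]
    exact ⟨H.hAC.mono inter_subset_left inter_subset_left,
      H.hBC.mono inter_subset_left inter_subset_left⟩

theorem Hyp.memA (H : Hyp n m b g A B C) {p : ℕ} (hp : p ∈ A) : 1 ≤ p ∧ p ≤ n := by
  have : p ∈ Icc 1 n := by rw [← H.hU]; simp [hp]
  exact mem_Icc.1 this

theorem Hyp.memB (H : Hyp n m b g A B C) {p : ℕ} (hp : p ∈ B) : 1 ≤ p ∧ p ≤ n := by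
  have : p ∈ Icc 1 n := by rw [← H.hU]; simp [hp]
  exact mem_Icc.1 this

theorem Hyp.memC (H : Hyp n m b g A B C) {p : ℕ} (hp : p ∈ C) : 1 ≤ p ∧ p ≤ n := by
  have : p ∈ Icc 1 n := by rw [← H.hU]; simp [hp]
  exact mem_Icc.1 this

theorem Hyp.ne_b (H : Hyp n m b g A B C) {p : ℕ} (hp : p ∈ A) : p ≠ b := by
  rintro rfl
  exact disjoint_left.1 H.hAB hp H.hb

theorem Hyp.ne_g (H : Hyp n m b g A B C) {p : ℕ} (hp : p ∈ A) : p ≠ g := by
  rintro rfl
  exact disjoint_left.1 H.hAC hp H.hg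

theorem gn_zero (p : ℕ) (hp : p ≤ g) : gn b g B C p = 0 := by
  unfold gn
  rw [card_eq_zero, filter_eq_empty_iff]
  intro x _ hx
  omega

/-- W1 -/
theorem Hyp.w1 (H : Hyp n m b g A B C) {p : ℕ} (hp : p ∈ A) (hpg : g < p) :
    (m : ℤ) - (p - g) ≤ (fC b C p : ℤ) + fB b g B p - gn b g B C p := by
  have hbg := H.hbg
  have h1 : gn b g B C p ≤ fC b C p := by
    unfold gn fC
    refine card_le_card_of_injOn (fun t => t.1) ?_ ?_
    · intro t ht
      rw [mem_coe, mem_filter, mem_product] at ht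
      rw [mem_coe, mem_filter]
      refine ⟨ht.1.1, ?_, ?_, ?_⟩ <;> dsimp only <;> omega
    · intro t ht t' ht' htt
      rw [mem_coe, mem_filter, mem_product] at ht ht'
      have htt' : t.1 = t'.1 := htt
      have h2 : t.2 = t'.2 := by omega
      exact Prod.ext htt' h2
  have h2 : m ≤ fB b g B p + (p - g) := by
    unfold fB
    have h6 := Finset.card_filter_add_card_filter_not (s := B.erase b)
      (fun r => p ≤ r + g ∧ r ≤ p + g ∧ g ≤ p + r)
    have h5 : ((B.erase b).filter (fun r => ¬ (p ≤ r + g ∧ r ≤ p + g ∧ g ≤ p + r))).card ≤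
        p - g - 1 := by
      have h7 : (B.erase b).filter (fun r => ¬ (p ≤ r + g ∧ r ≤ p + g ∧ g ≤ p + r)) ⊆
          Icc 1 (p - g - 1) := by
        intro x hx
        rw [mem_filter, mem_erase] at hx
        have h8 := H.memB hx.1.2
        have h9 := H.hbm x hx.1.2
        rw [mem_Icc]
        omega
      have h8 := card_le_card h7
      rw [Nat.card_Icc] at h8
      omega
    rw [card_erase_of_mem H.hb, H.hB] at h6
    have h10 : 0 < m := by rw [← H.hB]; exact card_pos.2 ⟨b, H.hb⟩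
    omega
  omega

/-- W2 -/
theorem Hyp.w2 (H : Hyp n m b g A B C) {p : ℕ} (hp : p ∈ A) (hpb : p + b ≤ g) (hpb' : p ≤ b) :
    (p : ℤ) - (A ∩ Ioc b (b + p)).card ≤ (fC b C p : ℤ) + fB b g B p - gn b g B C p := by
  have hbg := H.hbg
  have hgn := (H.memC H.hg).2
  have h1 : (C ∩ Ioc b (b + p)).card ≤ fC b C p := by
    unfold fC
    apply card_le_card
    intro q hq
    rw [mem_inter, mem_Ioc] at hq
    rw [mem_filter]
    refine ⟨hq.1, ?_, ?_, ?_⟩ <;> omega
  have h2 := H.window (Ioc b (b + p)) (by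
    intro x hx
    rw [mem_Ioc] at hx
    rw [mem_Icc]
    omega)
  have h3 : (B ∩ Ioc b (b + p)).card = 0 := by
    rw [card_eq_zero, eq_empty_iff_forall_notMem]
    intro x hx
    rw [mem_inter, mem_Ioc] at hx
    have := H.hbm x hx.1
    omega
  rw [Nat.card_Ioc] at h2
  have h4 := gn_zero (b := b) (B := B) (C := C) p (show p ≤ g by omega)
  omega

/-- W3, W4: with `w = max (g - p) (p - b)` -/
theorem Hyp.w34 (H : Hyp n m b g A B C) {p : ℕ} (hp : p ∈ A) (hpb : g < p + b) (hpg : p < g)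
    (h2b : b < p → g ≤ 2 * b) (w : ℕ) (hw1 : g ≤ w + p) (hw2 : p ≤ w + b) (hw3 : 1 ≤ w)
    (hwg : w ≤ g) :
    (g : ℤ) - w - (A ∩ Icc w g).card ≤ (fC b C p : ℤ) + fB b g B p - gn b g B C p := by
  have hbg := H.hbg
  have hgn := (H.memC H.hg).2
  have h1 : (C ∩ Icc w g).card ≤ fC b C p := by
    unfold fC
    apply card_le_card
    intro q hq
    rw [mem_inter, mem_Icc] at hq
    rw [mem_filter]
    have := H.ne_b hp
    refine ⟨hq.1, ?_, ?_, ?_⟩
    · omega
    · by_cases h : b < p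
      · have := h2b h
        omega
      · omega
    · omega
  have h1' : (B ∩ Icc w g).card ≤ fB b g B p + 1 := by
    unfold fB
    have h5 : (B ∩ Icc w g).erase b ⊆
        (B.erase b).filter (fun r => p ≤ r + g ∧ r ≤ p + g ∧ g ≤ p + r) := by
      intro q hq
      rw [mem_erase, mem_inter, mem_Icc] at hq
      rw [mem_filter, mem_erase]
      refine ⟨⟨hq.1, hq.2.1⟩, ?_, ?_, ?_⟩ <;> omega
    have h6 := card_le_card h5
    have h7 := pred_card_le_card_erase (s := B ∩ Icc w g) (a := b)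
    omega
  have h2 := H.window (Icc w g) (by
    intro x hx
    rw [mem_Icc] at hx
    rw [mem_Icc]
    omega)
  rw [Nat.card_Icc] at h2
  have h4 := gn_zero (b := b) (B := B) (C := C) p (show p ≤ g by omega)
  omega

theorem f_nonneg (p : ℕ) (hpg : p ≤ g) :
    0 ≤ (fC b C p : ℤ) + fB b g B p - gn b g B C p := by
  rw [gn_zero p hpg]
  push_cast
  omega

end Q285.RB
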