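import Mathlib
import Pool.Agent.Q285.RB.Drop1

set_option autoImplicit false

namespace Q285.RB

open Finset

variable {n m b g : ℕ} {A B C : Finset ℕ}

theorem split_sum (A : Finset ℕ) (G : ℕ → ℤ) (t u : ℕ) (h : t ≤ u) :
    ∑ p ∈ A ∩ Icc 1 u, G p = ∑ p ∈ A ∩ Icc 1 t, G p + ∑ p ∈ A ∩ Ioc t u, G p := by
  rw [← sum_union]
  · congr 1
    ext x
    simp only [mem_inter, mem_Icc, mem_Ioc, mem_union]
    constructor
    · rintro ⟨h1, h2, h3⟩
      by_cases h4 : x ≤ t
      · left; exact ⟨h1, h2, h4⟩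
      · right; exact ⟨h1, by omega, h3⟩
    · rintro (⟨h1, h2, h3⟩ | ⟨h1, h2, h3⟩)
      · exact ⟨h1, h2, by omega⟩
      · exact ⟨h1, by omega, h3⟩
  · rw [disjoint_left]
    intro x hx hx'
    simp only [mem_inter, mem_Icc, mem_Ioc] at hx hx'
    omega

/-- the counting function of `A` -/
def cnt (A : Finset ℕ) (t : ℕ) : ℕ := (A ∩ Icc 1 t).card

theorem split_card (A : Finset ℕ) (t u : ℕ) (h : t ≤ u) :
    cnt A u = cnt A t + (A ∩ Ioc t u).card := by
  have := split_sum A (fun _ => 1) t u h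
  simp only [sum_const, nsmul_eq_mul, mul_one] at this
  unfold cnt
  exact_mod_cast this

theorem cnt_mono (A : Finset ℕ) {t u : ℕ} (h : t ≤ u) : cnt A t ≤ cnt A u := by
  rw [split_card A t u h]; omega

theorem cnt_le_add (A : Finset ℕ) {t u : ℕ} (h : t ≤ u) : cnt A u ≤ cnt A t + (u - t) := by
  rw [split_card A t u h]
  have : (A ∩ Ioc t u).card ≤ (Ioc t u).card := card_le_card inter_subset_right
  rw [Nat.card_Ioc] at this
  omega

theorem card_Icc_inter (A : Finset ℕ) {w g : ℕ} (hw : 1 ≤ w) (h : w ≤ g + 1) :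
    (A ∩ Icc w g).card + cnt A (w - 1) = cnt A g := by
  have h1 := split_card A (w - 1) g (by omega)
  have h2 : Ioc (w - 1) g = Icc w g := by
    ext x
    simp only [mem_Icc, mem_Ioc]
    omega
  rw [h2] at h1
  omega

/-- the pairing of far pairs -/
theorem far_sum (b : ℕ) (D : ℕ) :
    2 * ∑ x ∈ Ioc b (b + D), (b + D - x) = D * (D - 1) := by
  induction D with
  | zero => simp
  | succ D ih =>
    have h1 : Ioc b (b + (D + 1)) = insert (b + (D + 1)) (Ioc b (b + D)) := by
      ext x
      simp only [mem_Ioc, mem_insert]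
      omega
    rw [h1, sum_insert (by simp)]
    have h2 : ∑ x ∈ Ioc b (b + D), (b + (D + 1) - x) = ∑ x ∈ Ioc b (b + D), ((b + D - x) + 1) := by
      apply sum_congr rfl
      intro x hx
      rw [mem_Ioc] at hx
      omega
    rw [h2, sum_add_distrib, mul_add, mul_add, ih]
    simp only [sum_const, Nat.card_Ioc, smul_eq_mul, mul_one, Nat.sub_self, mul_zero, zero_add,
      Nat.add_sub_cancel_left, Nat.add_sub_cancel]
    rcases D with _ | D
    · simp
    · simp only [Nat.add_sub_cancel]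
      ring

theorem far_pairs (A C : Finset ℕ) (hAC : Disjoint A C) (b g : ℕ) (hA : A ⊆ Ioc b g)
    (hC : C ⊆ Ioc b g) (h2 : 2 * b ≤ g) :
    2 * ((A ×ˢ C).filter (fun t => t.1 + b < t.2 ∨ t.2 + b < t.1)).card ≤
      (g - 2 * b) * (g - 2 * b - 1) := by
  have h1 : ((A ×ˢ C).filter (fun t => t.1 + b < t.2 ∨ t.2 + b < t.1)).card ≤
      ((Ioc b g).sigma (fun x => Ioc (x + b) g)).card := by
    refine card_le_card_of_injOn (fun t => if t.1 < t.2 then ⟨t.1, t.2⟩ else ⟨t.2, t.1⟩) ?_ ?_
    · intro t ht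
      rw [mem_coe, mem_filter, mem_product] at ht
      have hA' := mem_Ioc.1 (hA ht.1.1)
      have hC' := mem_Ioc.1 (hC ht.1.2)
      rw [mem_coe, mem_sigma]
      by_cases h : t.1 < t.2
      · simp only [h, if_true, mem_Ioc]
        omega
      · simp only [h, if_false, mem_Ioc]
        omega
    · intro t ht t' ht' htt
      rw [mem_coe, mem_filter, mem_product] at ht ht'
      by_cases h : t.1 < t.2
      · by_cases h' : t'.1 < t'.2
        · simp only [h, h', if_true, Sigma.mk.injEq, heq_eq_eq] at htt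
          exact Prod.ext htt.1 htt.2
        · simp only [h, h', if_true, if_false, Sigma.mk.injEq, heq_eq_eq] at htt
          exact absurd (htt.1 ▸ ht'.1.2) (disjoint_left.1 hAC ht.1.1)
      · by_cases h' : t'.1 < t'.2
        · simp only [h, h', if_true, if_false, Sigma.mk.injEq, heq_eq_eq] at htt
          exact absurd (htt.1 ▸ ht.1.2) (disjoint_left.1 hAC ht'.1.1)
        · simp only [h, h', if_false, Sigma.mk.injEq, heq_eq_eq] at htt
          exact Prod.ext htt.2 htt.1
  rw [card_sigma] at h1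
  have h3 : ∑ x ∈ Ioc b g, (Ioc (x + b) g).card = ∑ x ∈ Ioc b (b + (g - 2 * b)),
      (b + (g - 2 * b) - x) := by
    have h4 : Ioc b (b + (g - 2 * b)) ⊆ Ioc b g := by
      intro x hx
      rw [mem_Ioc] at hx ⊢
      omega
    rw [← sum_subset h4]
    · apply sum_congr rfl
      intro x hx
      rw [mem_Ioc] at hx
      rw [Nat.card_Ioc]
      omega
    · intro x hx hx'
      rw [mem_Ioc] at hx hx'
      rw [Nat.card_Ioc]
      omega
  rw [h3] at h1
  have h5 := far_sum b (g - 2 * b)
  omega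

end Q285.RB
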