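import Mathlib
import Pool.Agent.Q285.RB.Drop2

set_option autoImplicit false

namespace Q285.RB

open Finset

variable {n m b g : ℕ} {A B C : Finset ℕ}

/-- the weight of `p` -/
def F (b g : ℕ) (B C : Finset ℕ) (p : ℕ) : ℤ := (fC b C p : ℤ) + fB b g B p - gn b g B C p

theorem Hyp.nums (H : Hyp n m b g A B C) :
    n = 3 * m ∧ cnt A n = m ∧ cnt C b ≤ m ∧ b = m + cnt A b + cnt C b ∧
      g = 2 * m + cnt A g ∧ (A ∩ Ioc b g).card = cnt A g - cnt A b ∧
      (C ∩ Ioc b g).card = m - cnt C b ∧ cnt A b ≤ cnt A g ∧ cnt A g ≤ m ∧ A ∩ Ioc g n = Ioc g n ∧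
      g ≤ n := by
  have hbg := H.hbg
  have hgn := (H.memC H.hg).2
  have hAn : A ∩ Icc 1 n = A := by
    rw [inter_eq_left]
    intro x hx
    rw [mem_Icc]
    exact H.memA hx
  have hBn : B ∩ Icc 1 n = B := by
    rw [inter_eq_left]
    intro x hx
    rw [mem_Icc]
    exact H.memB hx
  have hCn : C ∩ Icc 1 n = C := by
    rw [inter_eq_left]
    intro x hx
    rw [mem_Icc]
    exact H.memC hx
  have hCg : C ∩ Icc 1 g = C := by
    rw [inter_eq_left]
    intro x hx
    rw [mem_Icc]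
    exact ⟨(H.memC hx).1, H.hgm x hx⟩
  have hBg : B ∩ Icc 1 g = B := by
    rw [inter_eq_left]
    intro x hx
    rw [mem_Icc]
    exact ⟨(H.memB hx).1, by have := H.hbm x hx; omega⟩
  have hBb : B ∩ Icc 1 b = B := by
    rw [inter_eq_left]
    intro x hx
    rw [mem_Icc]
    exact ⟨(H.memB hx).1, H.hbm x hx⟩
  have w1 := H.window (Icc 1 n) (Finset.Subset.refl _)
  have w2 := H.window (Icc 1 g) (Icc_subset_Icc_right hgn)
  have w3 := H.window (Icc 1 b) (Icc_subset_Icc_right (by omega))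
  rw [hAn, hBn, hCn, H.hA, H.hB, H.hC, Nat.card_Icc] at w1
  rw [hBg, hCg, H.hB, H.hC, Nat.card_Icc] at w2
  rw [hBb, H.hB, Nat.card_Icc] at w3
  have s1 := split_card A b g (by omega)
  have s2 := split_card C b g (by omega)
  have s3 := split_card A g n hgn
  have e1 : cnt A n = m := by unfold cnt; rw [hAn, H.hA]
  have e2 : cnt C g = m := by unfold cnt; rw [hCg, H.hC]
  have hAg : A ∩ Ioc g n = Ioc g n := by
    rw [inter_eq_right]
    intro x hx
    rw [mem_Ioc] at hx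
    have h1 : x ∈ A ∪ B ∪ C := by
      rw [H.hU, mem_Icc]; omega
    rw [mem_union, mem_union] at h1
    rcases h1 with (h1 | h1) | h1
    · exact h1
    · have := H.hbm x h1; omega
    · have := H.hgm x h1; omega
  unfold cnt at *
  refine ⟨by omega, by omega, by omega, by omega, by omega, by omega, by omega, by omega, by omega,
    hAg, hgn⟩

theorem Hyp.tail (H : Hyp n m b g A B C) :
    2 * ((n : ℤ) - g) * m - (n - g) * (n - g + 1) ≤ 2 * ∑ p ∈ A ∩ Ioc g n, F b g B C p := by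
  obtain ⟨-, -, -, -, -, -, -, -, -, hAg, hgn⟩ := H.nums
  have h1 : ∑ p ∈ A ∩ Ioc g n, ((m : ℤ) - (p - g)) ≤ ∑ p ∈ A ∩ Ioc g n, F b g B C p := by
    apply sum_le_sum
    intro p hp
    rw [mem_inter, mem_Ioc] at hp
    exact H.w1 hp.1 hp.2.1
  rw [hAg] at h1 ⊢
  have h2 : ∀ d : ℕ, 2 * ∑ p ∈ Ioc g (g + d), ((m : ℤ) - (p - g)) = 2 * d * m - d * (d + 1) := by
    intro d
    induction d with
    | zero => simp
    | succ d ih =>
      have h3 : Ioc g (g + (d + 1)) = insert (g + (d + 1)) (Ioc g (g + d)) := by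
        ext x
        simp only [mem_Ioc, mem_insert]
        omega
      rw [h3, sum_insert (by simp), mul_add, ih]
      push_cast
      ring
  obtain ⟨d, rfl⟩ := Nat.exists_eq_add_of_le hgn
  have h4 := h2 d
  push_cast
  have h5 : (g : ℤ) + d - g = d := by ring
  rw [h5]
  linarith

/-- lower bound by a constant -/
theorem sum_const_le (S : Finset ℕ) (G : ℕ → ℤ) (k : ℤ) (h : ∀ p ∈ S, k ≤ G p) :
    (S.card : ℤ) * k ≤ ∑ p ∈ S, G p := by
  have := card_nsmul_le_sum S G k h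
  rwa [nsmul_eq_mul] at this

/-- lower bound by rank -/
theorem sum_rank_le (S : Finset ℕ) (G : ℕ → ℤ) (t : ℕ) (k : ℤ) (ht : ∀ p ∈ S, t < p)
    (h : ∀ p ∈ S, (p : ℤ) - t + k ≤ G p) :
    (S.card : ℤ) * (S.card + 1) + 2 * S.card * k ≤ 2 * ∑ p ∈ S, G p := by
  have h1 := rank_sum S t ht
  have h2 : ∑ p ∈ S, ((p : ℤ) - t + k) ≤ ∑ p ∈ S, G p := sum_le_sum h
  rw [sum_add_distrib, sum_const, nsmul_eq_mul] at h2
  linarith

theorem Hyp.case1a (H : Hyp n m b g A B C) (h1 : g ≤ 2 * b) (h2 : b ≤ 2 * m) :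
    ((cnt A g : ℤ)) ^ 2 ≤ 2 * ∑ p ∈ A ∩ Icc 1 g, F b g B C p + 10 * m := by
  obtain ⟨e1, e2, e3, e4, e5, e6, e7, e8, e9, hAg, hgn⟩ := H.nums
  have hbg := H.hbg
  have hb1 := (H.memB H.hb).1
  set t := g - b with ht
  have htb : t ≤ b := by omega
  have hs1 := split_sum A (F b g B C) b g (by omega)
  have hs2 := split_sum A (F b g B C) t b htb
  have hc2 := split_card A t b htb
  -- third part
  have p3 : ((A ∩ Ioc b g).card : ℤ) * ((b : ℤ) - cnt A g + cnt A t - 1) ≤
      ∑ p ∈ A ∩ Ioc b g, F b g B C p := by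
    apply sum_const_le
    intro p hp
    rw [mem_inter, mem_Ioc] at hp
    have hpg := H.ne_g hp.1
    have hw := H.w34 hp.1 (by omega) (by omega) (fun _ => h1) (max (g - p) (p - b)) (by omega)
      (by omega) (by omega) (by omega)
    have hc := card_Icc_inter A (w := max (g - p) (p - b)) (g := g) (by omega) (by omega)
    have hd := cnt_le_add A (t := max (g - p) (p - b) - 1) (u := t) (by omega)
    unfold F
    omega
  have p2 := sum_rank_le (A ∩ Ioc t b) (F b g B C) t ((t : ℤ) - cnt A g + cnt A t) (by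
      intro p hp
      rw [mem_inter, mem_Ioc] at hp
      exact hp.2.1) (by
      intro p hp
      rw [mem_inter, mem_Ioc] at hp
      have hpb := H.ne_b hp.1
      have hw := H.w34 hp.1 (by omega) (by omega) (fun h => by omega) (g - p) (by omega)
        (by omega) (by omega) (by omega)
      have hc := card_Icc_inter A (w := g - p) (g := g) (by omega) (by omega)
      have hd := cnt_mono A (t := t) (u := g - p - 1) (by omega)
      unfold F
      omega)
  have q1 : ∀ x ∈ A ∩ Icc 1 t, (x : ℤ) - (A ∩ Ioc b g).card ≤ F b g B C x := by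
    intro p hp
    rw [mem_inter, mem_Icc] at hp
    have hw := H.w2 hp.1 (by omega) (by omega)
    have hc : (A ∩ Ioc b (b + p)).card ≤ (A ∩ Ioc b g).card := by
      apply card_le_card
      apply inter_subset_inter_left
      apply Ioc_subset_Ioc_right
      omega
    unfold F
    omega
  have q2 : ∀ x ∈ A ∩ Icc 1 t, 0 ≤ F b g B C x := by
    intro p hp
    rw [mem_inter, mem_Icc] at hp
    exact f_nonneg p (by omega)
  have p1' : 0 ≤ ∑ p ∈ A ∩ Icc 1 t, F b g B C p := sum_nonneg q2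
  have p1 : (A ∩ Ioc b g).card ≤ cnt A t → ((cnt A t : ℤ) - (A ∩ Ioc b g).card) *
      (cnt A t - (A ∩ Ioc b g).card + 1) ≤ 2 * ∑ p ∈ A ∩ Icc 1 t, F b g B C p := by
    intro hle
    exact rank_sum_trunc (A ∩ Icc 1 t) _ _ (fun x hx => by
      rw [mem_inter, mem_Icc] at hx; exact hx.2.1) q1 q2 hle
  rw [hs1, hs2]
  -- integers
  set S1 := ∑ p ∈ A ∩ Icc 1 t, F b g B C p
  set S2 := ∑ p ∈ A ∩ Ioc t b, F b g B C p
  set S3 := ∑ p ∈ A ∩ Ioc b g, F b g B C p
  set a1 := (A ∩ Ioc b g).card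
  set k := (A ∩ Ioc t b).card
  set l := cnt A t
  set c0 := cnt C b
  have E1 : cnt A g = a1 + k + l := by omega
  have E2 : cnt A b = k + l := by omega
  have E3 : b = m + (k + l) + c0 := by omega
  have E4 : t + k + l + c0 = m + (a1 + k + l) := by omega
  have E5 : a1 + k + l ≤ m := by omega
  have E6 : k + l + c0 ≤ m := by omega
  have E7 : c0 ≤ m := e3
  have E8 : a1 + k + l ≤ 2 * (k + l + c0) := by omega
  rw [E1] at p3 p2 ⊢
  clear_value S1 S2 S3 a1 k l c0 t
  have E3' : (b : ℤ) = m + (k + l) + c0 := by exact_mod_cast E3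
  have E4' : (t : ℤ) = m + a1 - c0 := by omega
  rw [E3'] at p3
  rw [E4'] at p2
  push_cast at *
  have F1 : (0 : ℤ) ≤ a1 := by positivity
  have F2 : (0 : ℤ) ≤ k := by positivity
  have F3 : (0 : ℤ) ≤ l := by positivity
  have F4 : (0 : ℤ) ≤ c0 := by positivity
  have F5 : (0 : ℤ) ≤ (m : ℤ) - (a1 + k + l) := by omega
  have F6 : (0 : ℤ) ≤ (m : ℤ) - (k + l + c0) := by omega
  have F8 : (0 : ℤ) ≤ 2 * (k + l + c0) - ((a1 : ℤ) + k + l) := by omega
  have F15 := mul_nonneg F1 F5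
  have F26 := mul_nonneg F2 F6
  have F14 := mul_nonneg F1 F4
  by_cases hle : a1 ≤ l
  · have p1 := p1 hle
    have hle' : (a1 : ℤ) ≤ l := by exact_mod_cast hle
    nlinarith
  · have hlt : (l : ℤ) ≤ a1 := by omega
    have G1 := mul_nonneg F3 (sub_nonneg.2 hlt)
    by_cases hc : a1 ≤ 2 * c0
    · have hc' : (0 : ℤ) ≤ 2 * c0 - a1 := by omega
      have G2 := mul_nonneg F1 hc'
      have G3 := mul_nonneg F1 F3
      nlinarith
    · have hc' : (0 : ℤ) ≤ 2 * ((m : ℤ) - (k + l + c0)) - a1 := by omega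
      have G2 := mul_nonneg F2 hc'
      have G3 := mul_nonneg F1 F8
      nlinarith

end Q285.RB
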