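import Mathlib
import Pool.Agent.Q285.RB.Drop3

set_option autoImplicit false

namespace Q285.RB

open Finset

variable {n m b g : ℕ} {A B C : Finset ℕ}

theorem Hyp.case1b (H : Hyp n m b g A B C) (h2 : 2 * m < b) :
    ((cnt A g : ℤ)) ^ 2 ≤ 2 * ∑ p ∈ A ∩ Icc 1 g, F b g B C p + 10 * m := by
  obtain ⟨e1, e2, e3, e4, e5, e6, e7, e8, e9, hAg, hgn⟩ := H.nums
  have hbg := H.hbg
  have hb1 := (H.memB H.hb).1
  have h1 : g ≤ 2 * b := by omega
  have hmp : 0 < m := by rw [← H.hB]; exact card_pos.2 ⟨b, H.hb⟩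
  set t := g - b with ht
  set m' := cnt A g with hm'
  have htb : t < m' := by omega
  have hs1 := split_sum A (F b g B C) (2 * m) g (by omega)
  have hs2 := split_sum A (F b g B C) m' (2 * m) (by omega)
  have hc1 := split_card A (2 * m) g (by omega)
  have hc2 := split_card A m' (2 * m) (by omega)
  -- third part
  have p3 : ((A ∩ Ioc (2 * m) g).card : ℤ) * (2 * (m : ℤ) - m' + cnt A m' - 1) ≤
      ∑ p ∈ A ∩ Ioc (2 * m) g, F b g B C p := by
    apply sum_const_le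
    intro p hp
    rw [mem_inter, mem_Ioc] at hp
    have hpg := H.ne_g hp.1
    have hw := H.w34 hp.1 (by omega) (by omega) (fun _ => h1) (max (g - p) (p - b)) (by omega)
      (by omega) (by omega) (by omega)
    have hc := card_Icc_inter A (w := max (g - p) (p - b)) (g := g) (by omega) (by omega)
    have hd := cnt_le_add A (t := max (g - p) (p - b) - 1) (u := m') (by omega)
    unfold F
    omega
  have p2 := sum_rank_le (A ∩ Ioc m' (2 * m)) (F b g B C) m' ((cnt A m' : ℤ) - 1) (by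
      intro p hp
      rw [mem_inter, mem_Ioc] at hp
      exact hp.2.1) (by
      intro p hp
      rw [mem_inter, mem_Ioc] at hp
      have hpb := H.ne_b hp.1
      have hw := H.w34 hp.1 (by omega) (by omega) (fun h => by omega) (g - p) (by omega)
        (by omega) (by omega) (by omega)
      have hc := card_Icc_inter A (w := g - p) (g := g) (by omega) (by omega)
      have hd := cnt_mono A (t := m' - 1) (u := g - p - 1) (by omega)
      have hd' := cnt_le_add A (t := m' - 1) (u := m') (by omega)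
      unfold F
      omega)
  have q1 : ∀ x ∈ A ∩ Icc 1 m', (x : ℤ) - ((A ∩ Ioc (2 * m) g).card + 1 : ℕ) ≤ F b g B C x := by
    intro p hp
    rw [mem_inter, mem_Icc] at hp
    by_cases hpt : p ≤ t
    · have hw := H.w2 hp.1 (by omega) (by omega)
      have hc : (A ∩ Ioc b (b + p)).card ≤ (A ∩ Ioc (2 * m) g).card := by
        apply card_le_card
        apply inter_subset_inter_left
        apply Ioc_subset_Ioc
        · omega
        · omega
      unfold F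
      omega
    · have hpb := H.ne_b hp.1
      have hw := H.w34 hp.1 (by omega) (by omega) (fun h => by omega) (g - p) (by omega)
        (by omega) (by omega) (by omega)
      have hc := card_Icc_inter A (w := g - p) (g := g) (by omega) (by omega)
      have hd := cnt_mono A (t := 2 * m - 1) (u := g - p - 1) (by omega)
      have hd' := cnt_le_add A (t := 2 * m - 1) (u := 2 * m) (by omega)
      unfold F
      omega
  have q2 : ∀ x ∈ A ∩ Icc 1 m', 0 ≤ F b g B C x := by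
    intro p hp
    rw [mem_inter, mem_Icc] at hp
    exact f_nonneg p (by omega)
  have p1' : 0 ≤ ∑ p ∈ A ∩ Icc 1 m', F b g B C p := sum_nonneg q2
  have p1 : (A ∩ Ioc (2 * m) g).card + 1 ≤ cnt A m' →
      ((cnt A m' : ℤ) - ((A ∩ Ioc (2 * m) g).card + 1 : ℕ)) *
      (cnt A m' - ((A ∩ Ioc (2 * m) g).card + 1 : ℕ) + 1) ≤
        2 * ∑ p ∈ A ∩ Icc 1 m', F b g B C p := by
    intro hle
    exact rank_sum_trunc (A ∩ Icc 1 m') _ _ (fun x hx => by
      rw [mem_inter, mem_Icc] at hx; exact hx.2.1) q1 q2 hle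
  rw [hs1, hs2]
  -- integers
  set S1 := ∑ p ∈ A ∩ Icc 1 m', F b g B C p
  set S2 := ∑ p ∈ A ∩ Ioc m' (2 * m), F b g B C p
  set S3 := ∑ p ∈ A ∩ Ioc (2 * m) g, F b g B C p
  set a1 := (A ∩ Ioc (2 * m) g).card
  set k := (A ∩ Ioc m' (2 * m)).card
  set l := cnt A m'
  have E1 : m' = a1 + k + l := by omega
  have E5 : a1 + k + l ≤ m := by omega
  clear_value S1 S2 S3 a1 k l m'
  rw [E1] at p3 ⊢
  push_cast at *
  have F1 : (0 : ℤ) ≤ a1 := by positivity
  have F2 : (0 : ℤ) ≤ k := by positivity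
  have F3 : (0 : ℤ) ≤ l := by positivity
  have F5 : (0 : ℤ) ≤ (m : ℤ) - (a1 + k + l) := by omega
  have F15 := mul_nonneg F1 F5
  by_cases hle : a1 + 1 ≤ l
  · have p1 := p1 hle
    nlinarith
  · have hlt : (l : ℤ) ≤ a1 := by omega
    have G1 := mul_nonneg F3 (sub_nonneg.2 hlt)
    have G3 := mul_nonneg F1 F3
    nlinarith

theorem Hyp.case2 (H : Hyp n m b g A B C) (h2 : 2 * b < g) :
    ((cnt A g : ℤ)) ^ 2 ≤ 2 * ∑ p ∈ A ∩ Icc 1 g, F b g B C p + 10 * m := by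
  obtain ⟨e1, e2, e3, e4, e5, e6, e7, e8, e9, hAg, hgn⟩ := H.nums
  have hbg := H.hbg
  have hb1 := (H.memB H.hb).1
  have hs1 := split_sum A (F b g B C) b g (by omega)
  have q2 : ∀ x ∈ A ∩ Icc 1 b, 0 ≤ F b g B C x := by
    intro p hp
    rw [mem_inter, mem_Icc] at hp
    exact f_nonneg p (by omega)
  have p1' : 0 ≤ ∑ p ∈ A ∩ Icc 1 b, F b g B C p := sum_nonneg q2
  have hfar := far_pairs (A ∩ Ioc b g) (C ∩ Ioc b g)
    (H.hAC.mono inter_subset_left inter_subset_left) b g inter_subset_right inter_subset_right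
    h2.le
  have hnear : ((A ∩ Ioc b g) ×ˢ (C ∩ Ioc b g)).card ≤
      (((A ∩ Ioc b g) ×ˢ (C ∩ Ioc b g)).filter
        (fun t => t.1 + b < t.2 ∨ t.2 + b < t.1)).card + ∑ p ∈ A ∩ Ioc b g, fC b C p := by
    have h6 := Finset.card_filter_add_card_filter_not (s := (A ∩ Ioc b g) ×ˢ (C ∩ Ioc b g))
      (fun t => t.1 + b < t.2 ∨ t.2 + b < t.1)
    have h7 : (((A ∩ Ioc b g) ×ˢ (C ∩ Ioc b g)).filter
        (fun t => ¬ (t.1 + b < t.2 ∨ t.2 + b < t.1))).card ≤ ∑ p ∈ A ∩ Ioc b g, fC b C p := by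
      have h8 : ∑ p ∈ A ∩ Ioc b g, fC b C p = ((A ∩ Ioc b g).sigma
        (fun p => C.filter (fun q => p ≤ q + b ∧ q ≤ p + b ∧ b ≤ p + q))).card := by
        rw [card_sigma]; rfl
      rw [h8]
      refine card_le_card_of_injOn (fun t => ⟨t.1, t.2⟩) ?_ ?_
      · intro t ht
        rw [mem_coe, mem_filter, mem_product, mem_inter, mem_inter, mem_Ioc, mem_Ioc] at ht
        rw [mem_coe, mem_sigma, mem_filter, mem_inter, mem_Ioc]
        refine ⟨⟨ht.1.1.1, ht.1.1.2⟩, ht.1.2.1, ?_⟩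
        dsimp only
        omega
      · intro t ht t' ht' htt
        simp only [Sigma.mk.injEq, heq_eq_eq] at htt
        exact Prod.ext htt.1 htt.2
    omega
  have p3 : (∑ p ∈ A ∩ Ioc b g, (fC b C p : ℤ)) ≤ ∑ p ∈ A ∩ Ioc b g, F b g B C p := by
    apply sum_le_sum
    intro p hp
    rw [mem_inter, mem_Ioc] at hp
    unfold F
    rw [gn_zero p hp.2.2]
    push_cast
    omega
  rw [card_product] at hnear
  rw [hs1]
  set S1 := ∑ p ∈ A ∩ Icc 1 b, F b g B C p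
  set S3 := ∑ p ∈ A ∩ Ioc b g, F b g B C p
  set X := (((A ∩ Ioc b g) ×ˢ (C ∩ Ioc b g)).filter
        (fun t => t.1 + b < t.2 ∨ t.2 + b < t.1)).card
  have p3' : ((∑ p ∈ A ∩ Ioc b g, fC b C p : ℕ) : ℤ) ≤ S3 := by
    push_cast
    exact p3
  set Y := ∑ p ∈ A ∩ Ioc b g, fC b C p
  set a1 := (A ∩ Ioc b g).card
  set c1 := (C ∩ Ioc b g).card
  set m' := cnt A g
  set a0 := cnt A b
  set c0 := cnt C b
  clear_value S1 S3 X Y a1 c1 m' a0 c0
  obtain ⟨D, hD⟩ : ∃ D, g = 2 * b + (D + 1) := ⟨g - 2 * b - 1, by omega⟩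
  have hD1 : g - 2 * b = D + 1 := by omega
  rw [hD1, Nat.add_sub_cancel] at hfar
  have hD2 : m' = 2 * (a0 + c0) + (D + 1) := by omega
  have hfar' : 2 * (X : ℤ) ≤ (D + 1) * D := by exact_mod_cast hfar
  have hnear' : (a1 : ℤ) * c1 ≤ X + Y := by exact_mod_cast hnear
  have ha1 : (a1 : ℤ) = a0 + 2 * c0 + (D + 1) := by omega
  have hc1 : (c1 : ℤ) = m - c0 := by omega
  have hm : (0 : ℤ) ≤ m - (2 * (a0 + c0) + (D + 1)) := by omega
  rw [ha1, hc1] at hnear'
  have F1 : (0 : ℤ) ≤ a0 := by positivity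
  have F2 : (0 : ℤ) ≤ c0 := by positivity
  have F3 : (0 : ℤ) ≤ D := by positivity
  have hD2' : (m' : ℤ) = 2 * (a0 + c0) + (D + 1) := by omega
  rw [hD2']
  have G1 := mul_nonneg F1 hm
  have G2 := mul_nonneg F2 hm
  have G3 := mul_nonneg F3 hm
  have G4 := mul_nonneg F1 F2
  have G5 := mul_nonneg F1 F3
  have G6 := mul_nonneg F2 F3
  nlinarith

theorem Hyp.main (H : Hyp n m b g A B C) :
    (m : ℤ) ^ 2 ≤ 2 * ∑ p ∈ A, F b g B C p + 20 * m := by
  obtain ⟨e1, e2, e3, e4, e5, e6, e7, e8, e9, hAg, hgn⟩ := H.nums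
  have h1 : ((cnt A g : ℤ)) ^ 2 ≤ 2 * ∑ p ∈ A ∩ Icc 1 g, F b g B C p + 10 * m := by
    by_cases h2 : 2 * b < g
    · exact H.case2 h2
    · by_cases h3 : 2 * m < b
      · exact H.case1b h3
      · exact H.case1a (by omega) (by omega)
  have h2 := H.tail
  have h3 := split_sum A (F b g B C) g n hgn
  have hAn : A ∩ Icc 1 n = A := by
    rw [inter_eq_left]
    intro x hx
    rw [mem_Icc]
    exact H.memA hx
  rw [hAn] at h3
  rw [h3]
  set S1 := ∑ p ∈ A ∩ Icc 1 g, F b g B C p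
  set S3 := ∑ p ∈ A ∩ Ioc g n, F b g B C p
  have h4 : (n : ℤ) - g = m - cnt A g := by omega
  rw [h4] at h2
  have h5 : (0 : ℤ) ≤ cnt A g := by positivity
  nlinarith

theorem drop (n m b g : ℕ) (A B C : Finset ℕ) (hU : A ∪ B ∪ C = Finset.Icc 1 n)
    (hAB : Disjoint A B) (hAC : Disjoint A C) (hBC : Disjoint B C) (hA : A.card = m)
    (hB : B.card = m) (hC : C.card = m) (hb : b ∈ B) (hbm : ∀ x ∈ B, x ≤ b) (hg : g ∈ C)
    (hgm : ∀ x ∈ C, x ≤ g) (hbg : b < g) :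
    m * m + 2 * ((A ×ˢ C ×ˢ B).filter (fun t => g < t.1 ∧ t.2.1 < b ∧ t.2.2 < b ∧
        t.1 = t.2.1 + t.2.2 + 1)).card ≤
      2 * ((A ×ˢ C).filter (fun t => t.1 ≤ t.2 + b ∧ t.2 ≤ t.1 + b ∧ b ≤ t.1 + t.2)).card +
      2 * ((A ×ˢ B.erase b).filter
        (fun t => t.1 ≤ t.2 + g ∧ t.2 ≤ t.1 + g ∧ g ≤ t.1 + t.2)).card + 20 * m := by
  have H : Hyp n m b g A B C := ⟨hU, hAB, hAC, hBC, hA, hB, hC, hb, hbm, hg, hgm, hbg⟩
  have h0 := H.main
  have h1 : ((A ×ˢ C ×ˢ B).filter (fun t => g < t.1 ∧ t.2.1 < b ∧ t.2.2 < b ∧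
        t.1 = t.2.1 + t.2.2 + 1)).card = ∑ p ∈ A, gn b g B C p := by
    simp only [gn, card_filter]
    rw [sum_product]
  have h2 : ((A ×ˢ C).filter (fun t => t.1 ≤ t.2 + b ∧ t.2 ≤ t.1 + b ∧ b ≤ t.1 + t.2)).card =
      ∑ p ∈ A, fC b C p := by
    simp only [fC, card_filter]
    rw [sum_product]
  have h3 : ((A ×ˢ B.erase b).filter
        (fun t => t.1 ≤ t.2 + g ∧ t.2 ≤ t.1 + g ∧ g ≤ t.1 + t.2)).card =
      ∑ p ∈ A, fB b g B p := by
    simp only [fB, card_filter]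
    rw [sum_product]
  rw [h1, h2, h3]
  have h4 : ∑ p ∈ A, F b g B C p = (∑ p ∈ A, fC b C p : ℕ) + (∑ p ∈ A, fB b g B p : ℕ) -
      (∑ p ∈ A, gn b g B C p : ℕ) := by
    simp only [F]
    push_cast
    rw [sum_sub_distrib, sum_add_distrib]
  rw [h4] at h0
  have : ((m : ℤ)) ^ 2 = ((m * m : ℕ) : ℤ) := by push_cast; ring
  rw [this] at h0
  omega

end Q285.RB
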